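import Mathlib
import Pool.Agent.H548Z.DrawMain

set_option autoImplicit false

namespace Pool.Agent.Results.MP_406ab0_co.AK9Counter

open Pool.Agent.H548Z.Draw

/-- A good h-convex drawing of `K_9` in the sphere that is not f-convex although all its induced
drawings of `K_8` are f-convex. -/
theorem result : ∃ D : Drawing (Fin 9), D.Good ∧ D.HConvex ∧ ¬ D.FConvex ∧
    ∀ J : Set (Fin 9), J.ncard = 8 → (D.induce J).FConvex :=
  main

end Pool.Agent.Results.MP_406ab0_co.AK9Counter
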